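import Mathlib
import Pool.Agent.Q182.DCDefs
import Pool.Agent.Q182.DCRel

/-!
# Openness of support sets in supp-perfect semigroups (MP_496bc7_gt): both answers are negative

The semigroup consists of the relations on the natural numbers which, outside a finite square, are
empty or coincide with the identity.
-/

namespace Pool.Agent.Results.MP_496bc7_gt.SupportNotOpen

open Q182.DC Topology

/-- There is a supp-perfect semigroup `(S, supp)` with a Hausdorff semigroup topology `τ` such that
for every point `x` the set `{f | x ∈ supp f}` is not open in `τ`, hence not open in the coarser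
semi-Zariski topology. -/
theorem result : ∃ (S : Type) (_ : Semigroup S) (supp : S → Set ℕ), SuppPerfect supp ∧
    (∀ x, ¬ IsOpen[semiZariski S] {f | x ∈ supp f}) ∧
    ∃ τ : TopologicalSpace S, IsHausdorffSemigroupTopology τ ∧ ∀ x, ¬ IsOpen[τ] {f | x ∈ supp f} := by
  have hτ : IsHausdorffSemigroupTopology topFR := ⟨t2_topFR, continuousMul_topFR⟩
  exact ⟨FR, inferInstance, FR.supp, suppPerfect,
    fun x h => not_isOpen x (isOpen_of_semiZariski hτ h), topFR, hτ, not_isOpen⟩

end Pool.Agent.Results.MP_496bc7_gt.SupportNotOpen
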